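import Pool.Agent.X308.Q2.Main

/-!
# Chow-Kunneth decompositions of product-quotient varieties

`𝒱` is a class of smooth projective geometrically irreducible varieties over the field `k` closed
under products (for example all of them), `C` the Chow groups with rational coefficients (in the
form of their formal properties, `IsChowProj`), `H` a Weil cohomology theory (`IsWeilProj`), and
`SurfaceProperties H` records two known facts: homologically trivial divisors on a product `X × Y`
are sums of pull-backs of divisors from `X` and from `Y` (with rational coefficients), and every
surface has a Chow-Kunneth decomposition as constructed by Murre.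

Let a finite group `G` act on varieties `X_1, …, X_r`, each of which is a curve, a surface or, more
generally, a variety whose motive is a direct summand of a sum of twists of motives of surfaces, or
a variety with a Chow-Kunneth decomposition without morphisms `h^b → h^a`, `b < a`
(`IsGoodFactor`). Let `Z = X_1 × ⋯ × X_r` with the product action (`IsProductAction`).

Theorem.
(1) `Z` has a self-dual Chow-Kunneth decomposition which commutes with `G`.
(2) If `Z` (any variety with a finite group `G` of automorphisms) has such a decomposition, then
every smooth quotient `Y = Z / G` has a self-dual Chow-Kunneth decomposition.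
(3) Curves and surfaces are good factors.

So the product-quotient varieties `(X_1 × ⋯ × X_r) / G` (when they are smooth, for example if `G`
acts freely) have self-dual Chow-Kunneth decompositions: the threefolds `(T × S) / G`, the fourfolds
`(S × S') / G`, with a curve `T` and arbitrary surfaces `S`, `S'`, and so on. No
finite-dimensionality is assumed: the Kunneth projectors of `Y` do not simply lift.
-/

set_option autoImplicit false

universe u v w

namespace Pool.Agent.Results.MP_524776_ag.ProductQuotients

open CategoryTheory Pool.Agent.H914 Pool.Agent.W492.BB Pool.Agent.TH133 Pool.Agent.X308.S
  Pool.Agent.X308.Q2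

/-- Products with product actions of a finite group have commuting self-dual Chow-Kunneth
decompositions, if the factors are curves, surfaces, direct summands of surfaces, or have a
decomposition without morphisms raising the weight; and smooth quotients by finite groups inherit
self-dual decompositions from commuting ones. -/
theorem result {k : Type u} [Field k] {𝒱 : VarClass k} (C : TheoryData.{u, v, 0} 𝒱 ℚ)
    [IsChowProj C] {K : Type w} [Field K] (H : WeilTheoryData.{u, v, w} C K) [IsWeilProj H]
    (hS : SurfaceProperties H) {G : Type} [Group G] [Fintype G] (Z : 𝒱.Obj)
    (φ : G → (Z ⟶ Z)) :
    (IsProductAction H Z φ → HasCommutingCK H Z φ) ∧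
    (∀ (Y : 𝒱.Obj) (f : Z ⟶ Y), IsQuotient C φ f → HasCommutingCK H Z φ →
      ∃ q : ℕ → C.A (Y.prod Y), IsCK H Y q ∧ IsSelfDual C q) ∧
    ∀ X : 𝒱.Obj, X.dim = 1 ∨ X.dim = 2 → IsGoodFactor H X :=
  ⟨fun h => hasCommutingCK_of_product hS h, fun _ _ hf h => descent hf h,
    fun _ hX => isGoodFactor_of_dim hX⟩

end Pool.Agent.Results.MP_524776_ag.ProductQuotients
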